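import Pool.Agent.Lib.MP_b5021c_nt.IfaceSF
import Pool.Agent.Lib.MP_b5021c_nt.E.H82.One
import Pool.Agent.Lib.MP_b5021c_nt.E.H82.Ov
import Pool.Agent.Lib.MP_b5021c_nt.B.H36.Evr
import Pool.Agent.Lib.MP_b5021c_nt.B.H14.Pri
import Pool.Agent.Lib.MP_b5021c_nt.B.H56.Gen
import Pool.Agent.Lib.MP_b5021c_nt.H75.Nn3
import Pool.Agent.Lib.MP_b5021c_nt.B.H17.Nr3

/-!
# MP_b5021c_nt, chapter SF, row SF_FJT (helper59): the mass is a Fejér kernel
-/

set_option autoImplicit false

namespace Pool.Agent.B5.SFH59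

open scoped LaurentPolynomial
open Pool.Agent.B5 Pool.Agent.B5.H36

/-! ## The Fejér kernel -/

/-- `2 - σ z - σ / z`. -/
noncomputable def q0 (sg : ℤ) : RO ℤ :=
  2 - LaurentPolynomial.C sg * LaurentPolynomial.T 1 - LaurentPolynomial.C sg *
    LaurentPolynomial.T (-1)

theorem geo (sg : ℤ) (m : ℕ) (e : ℤ) :
    (1 - LaurentPolynomial.C sg * LaurentPolynomial.T e) *
      (∑ k ∈ Finset.range m, (LaurentPolynomial.C (sg ^ k) * LaurentPolynomial.T (e * k) : RO ℤ)) =
      1 - LaurentPolynomial.C (sg ^ m) * LaurentPolynomial.T (e * m) := by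
  induction m with
  | zero => simp
  | succ m ih =>
    rw [Finset.sum_range_succ, mul_add, ih]
    have h1 : (LaurentPolynomial.T (e * ((m + 1 : ℕ) : ℤ)) : RO ℤ) =
        LaurentPolynomial.T e * LaurentPolynomial.T (e * m) := by
      rw [← LaurentPolynomial.T_add]
      congr 1
      push_cast
      ring
    rw [h1, pow_succ, map_mul]
    ring

theorem T_neg_mul (n : ℤ) : (LaurentPolynomial.T n * LaurentPolynomial.T (-n) : RO ℤ) = 1 := by
  rw [← LaurentPolynomial.T_add, add_neg_cancel, LaurentPolynomial.T_zero]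

theorem fej_mul (sg : ℤ) (hsg : sg = 1 ∨ sg = -1) (m : ℕ) :
    fej sg m * q0 sg = 2 - LaurentPolynomial.C (sg ^ m) * LaurentPolynomial.T m -
      LaurentPolynomial.C (sg ^ m) * LaurentPolynomial.T (-(m : ℤ)) := by
  have h1 := geo sg m 1
  have h2 := geo sg m (-1)
  simp only [one_mul] at h1
  simp only [neg_one_mul] at h2
  have hs : sg * sg = 1 := by rcases hsg with h | h <;> rw [h] <;> norm_num
  have hC : (LaurentPolynomial.C sg * LaurentPolynomial.C sg : RO ℤ) = 1 := by
    rw [← map_mul, hs, map_one]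
  have hCm : (LaurentPolynomial.C (sg ^ m) * LaurentPolynomial.C (sg ^ m) : RO ℤ) = 1 := by
    rw [← map_mul, ← mul_pow, hs, one_pow, map_one]
  have h3 : q0 sg = (1 - LaurentPolynomial.C sg * LaurentPolynomial.T 1) *
      (1 - LaurentPolynomial.C sg * LaurentPolynomial.T (-1)) := by
    unfold q0
    have := T_neg_mul 1
    linear_combination (-1 : RO ℤ) * hC * (LaurentPolynomial.T 1 * LaurentPolynomial.T (-1)) -
      this
  have h4 := T_neg_mul (m : ℤ)
  have h5 : fej sg m * q0 sg =
      (1 - LaurentPolynomial.C (sg ^ m) * LaurentPolynomial.T m) *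
        (1 - LaurentPolynomial.C (sg ^ m) * LaurentPolynomial.T (-(m : ℤ))) := by
    rw [← h1, ← h2, h3]
    unfold fej
    ring
  rw [h5]
  linear_combination hCm * (LaurentPolynomial.T (m : ℤ) * LaurentPolynomial.T (-(m : ℤ))) + h4

theorem fej_coeff (sg : ℤ) (hsg : sg = 1 ∨ sg = -1) (m : ℕ) : (fej sg m).coeff 0 = m := by
  unfold fej
  rw [Finset.sum_mul_sum, AddMonoidAlgebra.coeff_sum, Finsupp.finsetSum_apply]
  have h1 : ∀ i ∈ Finset.range m, (∑ j ∈ Finset.range m,
      (LaurentPolynomial.C (sg ^ i) * LaurentPolynomial.T (i : ℤ) *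
        (LaurentPolynomial.C (sg ^ j) * LaurentPolynomial.T (-(j : ℤ))) : RO ℤ)).coeff 0 = 1 := by
    intro i hi
    rw [AddMonoidAlgebra.coeff_sum, Finsupp.finsetSum_apply, Finset.sum_eq_single i]
    · have h2 : (LaurentPolynomial.C (sg ^ i) * LaurentPolynomial.T (i : ℤ) *
          (LaurentPolynomial.C (sg ^ i) * LaurentPolynomial.T (-(i : ℤ))) : RO ℤ) = 1 := by
        have h3 : (LaurentPolynomial.C (sg ^ i) * LaurentPolynomial.C (sg ^ i) : RO ℤ) = 1 := by
          rw [← map_mul, ← mul_pow]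
          rcases hsg with h | h <;> rw [h] <;> norm_num
        have h4 := T_neg_mul (i : ℤ)
        linear_combination h3 * (LaurentPolynomial.T (i : ℤ) * LaurentPolynomial.T (-(i : ℤ))) + h4
      rw [h2]
      rw [AddMonoidAlgebra.one_def, AddMonoidAlgebra.coeff_single, Finsupp.single_eq_same]
    · intro j _ hji
      have h2 : (LaurentPolynomial.C (sg ^ i) * LaurentPolynomial.T (i : ℤ) *
          (LaurentPolynomial.C (sg ^ j) * LaurentPolynomial.T (-(j : ℤ))) : RO ℤ) =
          AddMonoidAlgebra.single ((i : ℤ) - j) (sg ^ i * sg ^ j) := by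
        rw [LaurentPolynomial.single_eq_C_mul_T, map_mul, LaurentPolynomial.T_sub]
        ring
      rw [h2, AddMonoidAlgebra.coeff_single, Finsupp.single_eq_of_ne]
      omega
    · intro h
      exact absurd hi h
  rw [Finset.sum_congr rfl h1]
  simp

/-! ## Uncurrying -/

section

variable {L : Type} [AddCommGroup L]

/-- The coefficients as a function on `L × ℤ`. -/
noncomputable def uc (P : AO ℤ L) : L × ℤ →₀ ℤ :=
  Finsupp.uncurry (P.coeff.mapRange (fun Q : RO ℤ => Q.coeff) rfl)

theorem uc_apply (P : AO ℤ L) (b : L) (k : ℤ) : uc P (b, k) = (P.coeff b).coeff k := by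
  simp [uc]

theorem ev_sum (z : Circle) (u : AddChar L Circle) (P : AO ℤ L) :
    ev z u P = (uc P).sum fun x a => (a : ℂ) * ((z : ℂ) ^ x.2 * (u x.1 : ℂ)) := by
  change evC u (spec z P) = _
  rw [evC_apply]
  have h1 : (spec z P).coeff = P.coeff.mapRange (evR z) (map_zero _) := by
    apply Finsupp.ext
    intro a
    rw [spec_coeff, Finsupp.mapRange_apply]
  rw [h1, Finsupp.sum_mapRange_index (by simp)]
  unfold uc
  rw [Finsupp.sum_uncurry_index, Finsupp.sum_mapRange_index (by simp)]
  refine Finsupp.sum_congr ?_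
  intro b _
  rw [evR_eq, Finsupp.sum, Finset.sum_mul]
  refine Finset.sum_congr rfl fun k _ => ?_
  simp only [Coef.emb]
  simp [mul_assoc]

end

/-! ## Restriction to one variable -/

section

variable {L : Type} [AddCommGroup L]

/-- The one-variable polynomial `P(x^mu)`. -/
noncomputable def mapc (mu : L × ℤ →+ ℤ) (P : AO ℤ L) : ℤ →₀ ℤ := (uc P).mapDomain mu

theorem mapc_sum (mu : L × ℤ →+ ℤ) (P : AO ℤ L) (x : Circle) :
    ((mapc mu P).sum fun k a => (a : ℂ) * (x : ℂ) ^ k) =
      ev (x ^ mu (0, 1)) (twist 1 (mu.comp (AddMonoidHom.inl L ℤ)) x) P := by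
  rw [ev_sum]
  unfold mapc
  rw [Finsupp.sum_mapDomain_index (by simp) (by intro b m1 m2; push_cast; ring)]
  refine Finsupp.sum_congr ?_
  rintro ⟨b, k⟩ _
  congr 1
  have h1 : mu (b, k) = mu (0, 1) * k + mu (b, 0) := by
    have h2 : ((b, k) : L × ℤ) = k • (0, 1) + (b, 0) := by
      simp
    rw [h2, map_add, map_zsmul, smul_eq_mul, mul_comm]
  change (x : ℂ) ^ (mu (b, k)) = ((x ^ mu (0, 1) : Circle) : ℂ) ^ k *
    (((1 : AddChar L Circle) b * x ^ (mu (b, 0)) : Circle) : ℂ)
  rw [h1, zpow_add₀ (Circle.coe_ne_zero x), zpow_mul]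
  simp

theorem mapc_apply (mu : L × ℤ →+ ℤ) (P : AO ℤ L) (T : Finset (L × ℤ))
    (hmu : ∀ a ∈ T, ∀ b ∈ T, mu a = mu b → a = b) (hT : (uc P).support ⊆ T) (y : L × ℤ)
    (hy : y ∈ T) : mapc mu P (mu y) = uc P y := by
  unfold mapc
  exact Finsupp.mapDomain_apply' (T : Set (L × ℤ)) _ (by exact_mod_cast hT)
    (fun a ha b hb h => hmu a (by exact_mod_cast ha) b (by exact_mod_cast hb) h)
    (by exact_mod_cast hy)

theorem mapc_nn (mu : L × ℤ →+ ℤ) (P : AO ℤ L) (hP : NnT P) (x : Circle) :
    ((mapc mu P).sum fun k a => (a : ℂ) * (x : ℂ) ^ k).im = 0 ∧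
      0 ≤ ((mapc mu P).sum fun k a => (a : ℂ) * (x : ℂ) ^ k).re := by
  rw [mapc_sum]
  exact hP _ _

theorem mapc_symm (hNr : Nr3S) (mu : L × ℤ →+ ℤ) (P : AO ℤ L) (hP : NnT P) (k : ℤ) :
    mapc mu P (-k) = mapc mu P k := by
  by_cases hk : k = 0
  · rw [hk, neg_zero]
  set t : RO ℤ := AddMonoidAlgebra.ofCoeff (mapc mu P) with ht
  have htc : t.coeff = mapc mu P := rfl
  have hnn : NnR t := by
    intro z
    rw [evR_eq, htc]
    exact mapc_nn mu P hP z
  by_cases h0 : t = 0
  · have : mapc mu P = 0 := by rw [← htc, h0]; rfl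
    rw [this]
    rfl
  · have h1 := ((hNr ℤ t h0 hnn).2.1 k hk).2
    rw [htc] at h1
    simp only [Coef.emb] at h1
    simpa using h1

end

section

variable {L : Type} [AddCommGroup L] [Module.Free ℤ L] [Module.Finite ℤ L]

theorem good_mu (hG : GenS) (T : Finset (L × ℤ)) :
    ∃ mu : L × ℤ →+ ℤ, ∀ a ∈ T, ∀ b ∈ T, mu a = mu b → a = b := by
  obtain ⟨mu, -, -, h⟩ := hG (L × ℤ) ∅ T ⊥ 0 (by simp) (by
    intro n a hn ha
    rw [Submodule.mem_bot] at ha ⊢
    exact (smul_eq_zero.1 ha).resolve_left hn) (by simp) (by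
    intro a _ b _ hab
    rw [Submodule.mem_bot, sub_eq_zero] at hab
    exact hab)
  exact ⟨mu, h⟩

theorem uc_symm (hG : GenS) (hNr : Nr3S) (P : AO ℤ L) (hP : NnT P) (y : L × ℤ) :
    uc P (-y) = uc P y := by
  classical
  obtain ⟨mu, hmu⟩ := good_mu hG (insert y (insert (-y) (uc P).support))
  have hsub : (uc P).support ⊆ insert y (insert (-y) (uc P).support) := by
    intro x hx
    simp only [Finset.mem_insert]
    exact Or.inr (Or.inr hx)
  rw [← mapc_apply mu P _ hmu hsub y (by simp), ← mapc_apply mu P _ hmu hsub (-y) (by simp),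
    map_neg]
  exact mapc_symm hNr mu P hP _

theorem evR_q0 (z : Circle) (sg : ℤ) :
    evR z (q0 sg) = 2 - (sg : ℂ) * z - (sg : ℂ) * (z : ℂ)⁻¹ := by
  unfold q0
  rw [map_sub, map_sub, evR_CT, evR_CT, map_ofNat]
  simp [Coef.emb]

theorem q0_ne (sg : ℤ) : q0 sg ≠ 0 := by
  intro h
  have h1 : evR (Circle.exp (Real.pi / 2)) (q0 sg) = 0 := by rw [h, map_zero]
  rw [evR_q0] at h1
  have h2 : ((Circle.exp (Real.pi / 2) : Circle) : ℂ) = Complex.I := by
    rw [Circle.coe_exp]
    push_cast
    exact Complex.exp_pi_div_two_mul_I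
  rw [h2, Complex.inv_I] at h1
  have h3 := congrArg Complex.re h1
  simp at h3

/-- The circle point `σ`. -/
noncomputable def sgC (sg : ℤ) (h : sg = 1 ∨ sg = -1) : Circle :=
  ⟨(sg : ℂ), mem_sphere_zero_iff_norm.2 (by rcases h with h | h <;> rw [h] <;> simp)⟩

theorem sgC_coe (sg : ℤ) (h : sg = 1 ∨ sg = -1) : (sgC sg h : ℂ) = (sg : ℂ) := rfl

theorem evR_q0_sg (sg : ℤ) (h : sg = 1 ∨ sg = -1) : evR (sgC sg h) (q0 sg) = 0 := by
  rw [evR_q0, sgC_coe]
  rcases h with h | h <;> rw [h] <;> norm_num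

omit [Module.Free ℤ L] [Module.Finite ℤ L] in
theorem mulc (P : AO ℤ L) (c : RO ℤ) (b : L) : (P * cst c).coeff b = P.coeff b * c := by
  rw [mul_comm, H14.coeff_cst_mul, mul_comm]

omit [Module.Free ℤ L] [Module.Finite ℤ L] in
theorem ev_cst (z : Circle) (u : AddChar L Circle) (c : RO ℤ) :
    ev z u (cst c) = evR z c := by
  change evC u (spec z (cst c)) = _
  unfold spec cst evC
  rw [AddMonoidAlgebra.mapRingHom_single]
  simp [AddMonoidAlgebra.liftNCRingHom]

omit [Module.Free ℤ L] [Module.Finite ℤ L] in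
theorem nnt_mul (sg : ℤ) (hsg : sg = 1 ∨ sg = -1) (F : AO ℤ L) (hF : NnT F) :
    NnT (F * cst (q0 sg)) := by
  intro z u
  rw [map_mul, ev_cst, evR_q0]
  have h1 : (2 - (sg : ℂ) * z - (sg : ℂ) * (z : ℂ)⁻¹) =
      ((2 - 2 * sg * (z : ℂ).re : ℝ) : ℂ) := by
    rw [← Circle.coe_inv, Circle.coe_inv_eq_conj]
    have := Complex.add_conj (z : ℂ)
    push_cast
    push_cast at this
    linear_combination (-(sg : ℂ)) * this
  rw [h1]
  have h2 : 0 ≤ 2 - 2 * (sg : ℝ) * (z : ℂ).re := by
    have h3 : |(z : ℂ).re| ≤ 1 := (Complex.abs_re_le_norm _).trans (by rw [Circle.norm_coe])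
    have h4 := abs_le.1 h3
    rcases hsg with h | h <;> rw [h] <;> push_cast <;> linarith [h4.1, h4.2]
  obtain ⟨h3, h4⟩ := hF z u
  constructor
  · rw [Complex.mul_im, Complex.ofReal_im, Complex.ofReal_re, h3]
    ring
  · rw [Complex.mul_re, Complex.ofReal_im, Complex.ofReal_re]
    have := mul_nonneg h4 h2
    linarith

/-- Coefficients of a product with `q0`. -/
theorem q0_coeff (sg : ℤ) (f : RO ℤ) (k : ℤ) :
    (f * q0 sg).coeff k = 2 * f.coeff k - sg * f.coeff (k - 1) - sg * f.coeff (k + 1) := by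
  have h1 : f * q0 sg = LaurentPolynomial.C 2 * f -
      LaurentPolynomial.C sg * (LaurentPolynomial.T 1 * f) -
      LaurentPolynomial.C sg * (LaurentPolynomial.T (-1) * f) := by
    unfold q0
    have : (LaurentPolynomial.C (2 : ℤ) : RO ℤ) = 2 := by simp
    rw [this]
    ring
  have hT : ∀ (n : ℤ) (g : RO ℤ) (j : ℤ), (LaurentPolynomial.T n * g).coeff j = g.coeff (j - n) := by
    intro n g j
    unfold LaurentPolynomial.T
    rw [AddMonoidAlgebra.coeff_single_mul_apply]
    simp [sub_eq_neg_add]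
  have hC : ∀ (c : ℤ) (g : RO ℤ) (j : ℤ), (LaurentPolynomial.C c * g).coeff j = c * g.coeff j := by
    intro c g j
    exact AddMonoidAlgebra.coeff_single_zero_mul g c j
  rw [h1]
  simp only [AddMonoidAlgebra.coeff_sub, Finsupp.sub_apply, hC, hT]
  rw [sub_neg_eq_add]

theorem fjt_of (hG : GenS) (hNr : Nr3S) : FjtS := by
  classical
  intro L _ _ _ F m sg hF hm hsg h00 h01
  have hs : sg * sg = 1 := by rcases hsg with h | h <;> rw [h] <;> norm_num
  set P : AO ℤ L := F * cst (q0 sg) with hPdef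
  have hP : NnT P := nnt_mul sg hsg F hF
  have hPc : ∀ b, P.coeff b = F.coeff b * q0 sg := fun b => mulc F _ b
  -- the constant coefficient
  have hF1 : (F.coeff 0).coeff (-1) = (F.coeff 0).coeff 1 := by
    have := uc_symm hG hNr F hF (0, 1)
    rw [← uc_apply, ← uc_apply, ← this]
    simp
  have hP0 : uc P (0, 0) = 2 := by
    rw [uc_apply, hPc, q0_coeff]
    rw [zero_sub, zero_add, hF1, h00, h01]
    linear_combination (-2 * ((m : ℤ) - 1)) * hs
  -- one variable
  obtain ⟨mu, hmu⟩ := good_mu hG (insert (0, 0) (insert (0, 1) (uc P).support))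
  have hsub : (uc P).support ⊆ insert (0, 0) (insert (0, 1) (uc P).support) := by
    intro x hx
    simp only [Finset.mem_insert]
    exact Or.inr (Or.inr hx)
  have happ := mapc_apply mu P _ hmu hsub
  have hmu1 : mu (0, 1) ≠ 0 := by
    intro h
    have := hmu (0, 1) (by simp) (0, 0) (by simp) (by
      rw [h]
      exact (map_zero mu).symm)
    simp at this
  obtain ⟨x, hx⟩ : ∃ x : Circle, x ^ mu (0, 1) = sgC sg hsg := by
    obtain ⟨w, hw, hw2⟩ := Pool.Agent.B5.E.H82.root (mu (0, 1)).natAbs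
      (Int.natAbs_pos.2 hmu1) (sgC sg hsg : ℂ) (Circle.norm_coe _)
    have hinv : (sgC sg hsg)⁻¹ = sgC sg hsg := by
      apply Circle.ext
      rw [Circle.coe_inv, sgC_coe]
      rcases hsg with h | h <;> rw [h] <;> norm_num
    set y : Circle := ⟨w, mem_sphere_zero_iff_norm.2 hw⟩ with hy
    have hyp : y ^ (mu (0, 1)).natAbs = sgC sg hsg := by
      apply Circle.ext
      rw [Circle.coe_pow]
      exact hw2
    refine ⟨y, ?_⟩
    rcases Int.natAbs_eq (mu (0, 1)) with h | h
    · rw [h, zpow_natCast, hyp]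
    · rw [h, zpow_neg, zpow_natCast, hyp, hinv]
  obtain ⟨M, κ, hM0, hκ, hone⟩ := Pool.Agent.B5.E.H82.one (mapc mu P)
    (fun k => mapc_symm hNr mu P hP k) (fun z => (mapc_nn mu P hP z).2) (by
      have := happ (0, 0) (by simp)
      rw [show mu (0, 0) = 0 from map_zero mu] at this
      rw [this, hP0]) ⟨x, by
      rw [mapc_sum, hx, hPdef, map_mul, ev_cst, evR_q0_sg, mul_zero]⟩
  have hκ0 : κ ≠ 0 := by rcases hκ with h | h <;> rw [h] <;> norm_num
  -- the support
  have hcM : mapc mu P M = κ := by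
    rw [hone]
    rw [if_neg (by omega), if_pos (Or.inl rfl)]
  obtain ⟨y0, hy0, hy0M⟩ : ∃ y0 ∈ (uc P).support, mu y0 = M := by
    have h1 : (M : ℤ) ∈ (mapc mu P).support := by
      rw [Finsupp.mem_support_iff, hcM]
      exact hκ0
    have h2 := Finsupp.mapDomain_support h1
    rw [Finset.mem_image] at h2
    exact h2
  have hval : ∀ y ∈ (uc P).support, uc P y = if mu y = 0 then 2 else
      if mu y = M ∨ mu y = -M then κ else 0 := by
    intro y hy
    rw [← happ y (hsub hy), hone]
  have hsupp : ∀ y ∈ (uc P).support, y = 0 ∨ y = y0 ∨ y = -y0 := by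
    intro y hy
    have h1 := hval y hy
    have h2 := Finsupp.mem_support_iff.1 hy
    rw [h1] at h2
    by_cases h3 : mu y = 0
    · left
      exact hmu y (hsub hy) (0, 0) (by simp) (by rw [h3]; exact (map_zero mu).symm)
    · rw [if_neg h3] at h2
      by_cases h4 : mu y = M ∨ mu y = -M
      · rcases h4 with h4 | h4
        · right; left
          exact hmu y (hsub hy) y0 (hsub hy0) (by rw [h4, hy0M])
        · right; right
          have h5 : -y ∈ (uc P).support := by
            rw [Finsupp.mem_support_iff, uc_symm hG hNr P hP]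
            exact Finsupp.mem_support_iff.1 hy
          have h6 := hmu (-y) (hsub h5) y0 (hsub hy0) (by rw [map_neg, h4, hy0M, neg_neg])
          rw [← h6, neg_neg]
      · rw [if_neg h4] at h2
        exact absurd rfl h2
  have hy0v : uc P y0 = κ := by
    rw [hval y0 hy0, hy0M, if_neg (by omega), if_pos (Or.inl rfl)]
  have hy0n : uc P (-y0) = κ := by rw [uc_symm hG hNr P hP, hy0v]
  obtain ⟨b0, k0⟩ := y0
  -- `b0 = 0`
  have hb0 : b0 = 0 := by
    by_contra hb0
    have hne : b0 ≠ -b0 := by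
      intro h
      have h1 : (2 : ℤ) • b0 = 0 := by
        rw [two_smul]
        nth_rewrite 2 [h]
        exact add_neg_cancel b0
      exact hb0 ((smul_eq_zero.1 h1).resolve_left (by norm_num))
    have h1 : P.coeff b0 = AddMonoidAlgebra.single k0 κ := by
      refine AddMonoidAlgebra.ext (Finsupp.ext ?_)
      intro k
      rw [AddMonoidAlgebra.coeff_single, ← uc_apply]
      by_cases hk : k = k0
      · rw [hk, Finsupp.single_eq_same, hy0v]
      · rw [Finsupp.single_eq_of_ne hk]
        by_contra h2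
        rcases hsupp (b0, k) (Finsupp.mem_support_iff.2 h2) with h | h | h
        · exact hb0 (congrArg Prod.fst h)
        · exact hk (congrArg Prod.snd h)
        · exact hne (congrArg Prod.fst h)
    have h2 : evR (sgC sg hsg) (P.coeff b0) = 0 := by
      rw [hPc, map_mul, evR_q0_sg, mul_zero]
    rw [h1, evR_single] at h2
    rcases mul_eq_zero.1 h2 with h3 | h3
    · simp only [Coef.emb] at h3
      simp at h3
      exact hκ0 h3
    · exact zpow_ne_zero _ (Circle.coe_ne_zero _) h3
  subst hb0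
  have hk0 : k0 ≠ 0 := by
    rintro rfl
    rw [show mu (0, 0) = 0 from map_zero mu] at hy0M
    omega
  -- the other coefficients vanish
  have hother : ∀ b : L, b ≠ 0 → F.coeff b = 0 := by
    intro b hb
    have h1 : P.coeff b = 0 := by
      refine AddMonoidAlgebra.ext (Finsupp.ext ?_)
      intro k
      change (P.coeff b).coeff k = 0
      rw [← uc_apply]
      by_contra h2
      rcases hsupp (b, k) (Finsupp.mem_support_iff.2 h2) with h | h | h
      · exact hb (congrArg Prod.fst h)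
      · exact hb (congrArg Prod.fst h)
      · exact hb (by simpa using congrArg Prod.fst h)
    rw [hPc] at h1
    exact (mul_eq_zero.1 h1).resolve_right (q0_ne sg)
  -- the zeroth coefficient
  have hP0' : P.coeff 0 = 2 + AddMonoidAlgebra.single k0 κ + AddMonoidAlgebra.single (-k0) κ := by
    refine AddMonoidAlgebra.ext (Finsupp.ext ?_)
    intro k
    have e2 : (2 : RO ℤ) = AddMonoidAlgebra.single 0 2 := by
      have : (LaurentPolynomial.C (2 : ℤ) : RO ℤ) = 2 := by simp
      rw [← this]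
      rfl
    rw [e2]
    simp only [AddMonoidAlgebra.coeff_add, AddMonoidAlgebra.coeff_single, Finsupp.add_apply]
    rw [← uc_apply]
    by_cases h1 : k = 0
    · rw [h1, hP0, Finsupp.single_eq_same, Finsupp.single_eq_of_ne (by omega),
        Finsupp.single_eq_of_ne (by omega)]
      ring
    · rw [Finsupp.single_eq_of_ne h1]
      by_cases h2 : k = k0
      · rw [h2, hy0v, Finsupp.single_eq_same, Finsupp.single_eq_of_ne (by omega)]
        ring
      · rw [Finsupp.single_eq_of_ne h2]
        by_cases h3 : k = -k0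
        · rw [h3, Finsupp.single_eq_same]
          have := hy0n
          simp only [Prod.neg_mk, neg_zero] at this
          rw [this]
          ring
        · rw [Finsupp.single_eq_of_ne h3]
          by_contra h4
          rcases hsupp (0, k) (Finsupp.mem_support_iff.2 (fun h => h4 (by rw [h]; rfl))) with
            h | h | h
          · exact h1 (congrArg Prod.snd h)
          · exact h2 (congrArg Prod.snd h)
          · exact h3 (congrArg Prod.snd h)
  have hs2 : ∀ n : ℕ, (sg ^ n = 1 ∨ sg ^ n = -1) := by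
    intro n
    rcases hsg with h | h
    · left; rw [h, one_pow]
    · rw [h]; exact neg_one_pow_eq_or ℤ n
  have hκs : κ = -sg ^ k0.natAbs := by
    have h2 : evR (sgC sg hsg) (P.coeff 0) = 0 := by
      rw [hPc, map_mul, evR_q0_sg, mul_zero]
    have h3 : ((sgC sg hsg : Circle) : ℂ) ^ k0 = ((sg ^ k0.natAbs : ℤ) : ℂ) := by
      rw [sgC_coe]
      have hinv : (sg : ℂ)⁻¹ = sg := by rcases hsg with h | h <;> rw [h] <;> norm_num
      rcases Int.natAbs_eq k0 with h | h
      · conv_lhs => rw [h, zpow_natCast]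
        push_cast
        rfl
      · conv_lhs => rw [h, zpow_neg, zpow_natCast, ← inv_pow, hinv]
        push_cast
        rfl
    have h4 : ((sgC sg hsg : Circle) : ℂ) ^ (-k0) = ((sg ^ k0.natAbs : ℤ) : ℂ) := by
      rw [zpow_neg, h3]
      rcases hs2 k0.natAbs with h | h <;> rw [h] <;> norm_num
    rw [hP0', map_add, map_add, evR_single, evR_single, h3, h4, map_ofNat] at h2
    simp only [Coef.emb] at h2
    have h5 : (2 : ℤ) + κ * sg ^ k0.natAbs + κ * sg ^ k0.natAbs = 0 := by
      have : ((2 + κ * sg ^ k0.natAbs + κ * sg ^ k0.natAbs : ℤ) : ℂ) = 0 := by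
        push_cast
        push_cast at h2
        simpa using h2
      exact_mod_cast this
    rcases hs2 k0.natAbs with h | h <;> rw [h] at h5 ⊢ <;> linarith
  have hfin : F.coeff 0 = fej sg k0.natAbs := by
    have h1 : F.coeff 0 * q0 sg = fej sg k0.natAbs * q0 sg := by
      rw [← hPc, hP0', fej_mul sg hsg, hκs, LaurentPolynomial.single_eq_C_mul_T,
        LaurentPolynomial.single_eq_C_mul_T, map_neg]
      rcases Int.natAbs_eq k0 with h | h
      · rw [← h]
        ring
      · rw [show ((k0.natAbs : ℕ) : ℤ) = -k0 by omega, neg_neg]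
        ring
    exact mul_right_cancel₀ (q0_ne sg) h1
  have hmk : k0.natAbs = m := by
    have h1 := h00
    rw [hfin, fej_coeff sg hsg] at h1
    exact_mod_cast h1
  rw [hmk] at hfin
  refine AddMonoidAlgebra.ext (Finsupp.ext ?_)
  intro b
  unfold cst
  rw [AddMonoidAlgebra.coeff_single]
  by_cases hb : b = 0
  · rw [hb, Finsupp.single_eq_same, hfin]
  · rw [Finsupp.single_eq_of_ne hb, hother b hb]

theorem fjt : FjtS := fjt_of H56.gen (H17.nr3 (Pool.Agent.B5.H75.nn3 H56.gen))

end

end Pool.Agent.B5.SFH59
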